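import Pool.Agent.TH893.CL.Black

set_option autoImplicit false

namespace Pool.Agent.TH893.CL

open Finset

/-- Two neighbouring lengths, and the average over the lengths. -/
theorem pair_avg {a : ℕ} (ha : 1 ≤ a) {ε : ℝ} (hε : 0 < ε) : ∃ H₀ N₀ : ℕ, ∀ N H : ℕ, N₀ ≤ N → H₀ ≤ H → H ≤ N →
    ∀ b : ℕ, b ≤ N →
    num (Icc 1 H) (fun k => ¬ ∀ Y X : ℕ, Y ≤ X → X ≤ N →
      |SS (lr a b) k Y X| + |SS (lr a b) (k + 1) Y X| ≤ ((X:ℝ) - Y) / 2 + ε * N) ≤ ε * H ∧
    ∀ Y X : ℕ, Y ≤ X → X ≤ N → ∑ k ∈ Icc 1 H, |SS (lr a b) k Y X| ≤ H * (((X:ℝ) - Y) / 4 + ε * N) := by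
  have hε2 : 0 < ε / 4 := by positivity
  obtain ⟨η, hη, N₁, h1⟩ := core hε2
  obtain ⟨H₀, N₂, h2⟩ := plus_minus ha hη
  refine ⟨max H₀ (max 1 ⌈2 / ε⌉₊), max N₁ N₂, ?_⟩
  intro N H hN hH hHN b hb
  have hH1 : 1 ≤ H := (le_max_left _ _).trans ((le_max_right _ _).trans hH)
  have hH2 : 2 / ε ≤ H := (Nat.le_ceil _).trans (by exact_mod_cast (le_max_right _ _).trans ((le_max_right _ _).trans hH))
  have hH3 : 2 ≤ ε * H := by rw [div_le_iff₀ hε] at hH2; linarith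
  obtain ⟨hP, hM⟩ := h2 N H ((le_max_right _ _).trans hN) ((le_max_left _ _).trans hH) hHN b hb
  have h3 := h1 (lr a b) (lr_pm a b) N H ((le_max_left _ _).trans hN) hH1 hP hM
  have hN0 : (0:ℝ) ≤ N := Nat.cast_nonneg _
  have hH0 : (0:ℝ) ≤ H := Nat.cast_nonneg _
  constructor
  · refine (num_mono ?_).trans (h3.trans ?_)
    · intro k _ hk hcon
      apply hk
      intro Y X hYX hX
      refine (hcon Y X hYX hX).trans ?_
      nlinarith
    · nlinarith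
  · intro Y X hYX hX
    have hXN : (X:ℝ) ≤ N := by exact_mod_cast hX
    have hY0 : (0:ℝ) ≤ Y := Nat.cast_nonneg _
    have hXY : (Y:ℝ) ≤ X := by exact_mod_cast hYX
    have hb1 : ∀ k, |SS (lr a b) k Y X| ≤ (X:ℝ) - Y := fun k =>
      abs_sum_Ioc_le (fun n => (Pk_abs (lr_pm a b) k n).le) hYX
    set f : ℕ → ℝ := fun k => |SS (lr a b) k Y X| + |SS (lr a b) (k + 1) Y X| with hf
    have h4 := sum_le_of_num (I := Icc 1 H) (f := f) (u := ((X:ℝ) - Y) / 2 + ε / 4 * N) (M := 2 * N)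
      (by have : 0 ≤ ((X:ℝ) - Y) / 2 := by linarith
          positivity) (fun k _ => by
        simp only [hf]
        have := hb1 k
        have := hb1 (k + 1)
        linarith)
    have h5 : num (Icc 1 H) (fun k => ¬ f k ≤ ((X:ℝ) - Y) / 2 + ε / 4 * N) ≤ ε / 4 * H := by
      refine (num_mono ?_).trans h3
      intro k _ hk hcon
      exact hk (hcon Y X hYX hX)
    rw [Nat.card_Icc, Nat.add_sub_cancel] at h4
    have h6 : ∑ k ∈ Icc 1 H, f k = 2 * ∑ k ∈ Icc 1 H, |SS (lr a b) k Y X| + |SS (lr a b) (H + 1) Y X| -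
        |SS (lr a b) 1 Y X| := by
      simp only [hf]
      rw [sum_add_distrib]
      have h7 : ∑ k ∈ Icc 1 H, |SS (lr a b) (k + 1) Y X| = ∑ k ∈ Icc 1 H, |SS (lr a b) k Y X| +
          |SS (lr a b) (H + 1) Y X| - |SS (lr a b) 1 Y X| := by
        clear h3 hP hM hH hHN hH2 hH3 h4 h5 hH0
        induction H, hH1 using Nat.le_induction with
        | base => simp
        | succ H hH ih =>
          rw [sum_Icc_succ_top (by omega), sum_Icc_succ_top (by omega), ih]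
          ring
      rw [h7]; ring
    have h8 := hb1 1
    have h9 : 0 ≤ |SS (lr a b) (H + 1) Y X| := abs_nonneg _
    have h10 : 2 * N * num (Icc 1 H) (fun k => ¬ f k ≤ ((X:ℝ) - Y) / 2 + ε / 4 * N) ≤ 2 * N * (ε / 4 * H) :=
      mul_le_mul_of_nonneg_left h5 (by positivity)
    have h11 : (N:ℝ) ≤ ε * H * N / 2 := by nlinarith
    nlinarith

end Pool.Agent.TH893.CL
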