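import Pool.Agent.TH893.CL.Pair

set_option autoImplicit false

namespace Pool.Agent.TH893.CL

open Finset

variable {l : ℕ → ℝ}

/-- twisted sums: the pointwise step -/
lemma twist_step (hl : ∀ n, l n = 1 ∨ l n = -1) (k : ℕ) {u : ℕ → ℝ} (hu : ∀ n, |u n| ≤ 1) {Y X : ℕ} (hYX : Y ≤ X) :
    2 * ∑ n ∈ Ioc Y X, u n * Pk l k n ≤ ((X:ℝ) - Y) + ∑ n ∈ Ioc Y X, (u n * u (n + 1) * l n) * l (n + k) + 2 := by
  set w : ℕ → ℝ := fun n => u n * Pk l k n with hw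
  have hwb : ∀ n, |w n| ≤ 1 := by
    intro n
    simp only [hw, abs_mul, Pk_abs hl, mul_one]
    exact hu n
  have hshift : ∑ n ∈ Ioc Y X, w (n + 1) = ∑ n ∈ Ioc Y X, w n + w (X + 1) - w (Y + 1) := by
    induction X, hYX using Nat.le_induction with
    | base => simp
    | succ X hX ih =>
      rw [← Finset.insert_Ioc_right_eq_Ioc_add_one (by omega), sum_insert (by simp), sum_insert (by simp), ih]
      ring
  have h1 : ∑ n ∈ Ioc Y X, (w n + w (n + 1)) ≤ ∑ n ∈ Ioc Y X, (1 + (u n * u (n + 1) * l n) * l (n + k)) := by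
    apply sum_le_sum
    intro n _
    have h2 : w n * w (n + 1) = (u n * u (n + 1) * l n) * l (n + k) := by
      simp only [hw]
      rw [Pk_eq hl, Pk_eq hl, show n + 1 + k = n + k + 1 by ring, F_succ, F_succ]
      have h3 := F_mul_self hl n
      have h4 := F_mul_self hl (n + k)
      calc u n * (F l n * F l (n + k)) * (u (n + 1) * (F l n * l n * (F l (n + k) * l (n + k))))
          = (F l n * F l n) * (F l (n + k) * F l (n + k)) * ((u n * u (n + 1) * l n) * l (n + k)) := by ring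
        _ = _ := by rw [h3, h4]; ring
    rw [← h2]
    have h5 := abs_le.1 (hwb n)
    have h6 := abs_le.1 (hwb (n + 1))
    nlinarith
  rw [sum_add_distrib, hshift] at h1
  rw [sum_add_distrib, sum_const, Nat.card_Ioc, nsmul_eq_mul, mul_one, Nat.cast_sub hYX] at h1
  have h7 := abs_le.1 (hwb (X + 1))
  have h8 := abs_le.1 (hwb (Y + 1))
  linarith

/-- twisted sums: complex weights -/
lemma twist_le (hl : ∀ n, l n = 1 ∨ l n = -1) (k : ℕ) {ξ : ℕ → ℂ} (hξ : ∀ n, ‖ξ n‖ ≤ 1) {Y X : ℕ} (hYX : Y ≤ X)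
    {M : ℝ}
    (h1 : |∑ n ∈ Ioc Y X, ((ξ n).re * (ξ (n + 1)).re * l n) * l (n + k)| ≤ M)
    (h2 : |∑ n ∈ Ioc Y X, ((ξ n).re * (ξ (n + 1)).im * l n) * l (n + k)| ≤ M)
    (h3 : |∑ n ∈ Ioc Y X, ((ξ n).im * (ξ (n + 1)).re * l n) * l (n + k)| ≤ M)
    (h4 : |∑ n ∈ Ioc Y X, ((ξ n).im * (ξ (n + 1)).im * l n) * l (n + k)| ≤ M) :
    ‖∑ n ∈ Ioc Y X, ξ n * (Pk l k n : ℂ)‖ ≤ ((X:ℝ) - Y) / 2 + 2 * M + 1 := by
  set Z : ℂ := ∑ n ∈ Ioc Y X, ξ n * (Pk l k n : ℂ) with hZ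
  have hM : 0 ≤ M := (abs_nonneg _).trans h1
  have hXY : (0:ℝ) ≤ (X:ℝ) - Y := by
    have : (Y:ℝ) ≤ X := by exact_mod_cast hYX
    linarith
  rcases eq_or_ne Z 0 with h0 | h0
  · rw [h0, norm_zero]; positivity
  have hZ0 : 0 < ‖Z‖ := norm_pos_iff.2 h0
  set c : ℝ := Z.re / ‖Z‖ with hc
  set s : ℝ := Z.im / ‖Z‖ with hs
  have hcs : c ^ 2 + s ^ 2 = 1 := by
    rw [hc, hs, div_pow, div_pow, ← add_div, div_eq_one_iff_eq (by positivity)]
    rw [← Complex.normSq_eq_norm_sq, Complex.normSq_apply]; ring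
  have hc1 : |c| ≤ 1 := by
    rw [← sq_le_one_iff_abs_le_one]; nlinarith [sq_nonneg s]
  have hs1 : |s| ≤ 1 := by
    rw [← sq_le_one_iff_abs_le_one]; nlinarith [sq_nonneg c]
  set u : ℕ → ℝ := fun n => c * (ξ n).re + s * (ξ n).im with hu
  have hub : ∀ n, |u n| ≤ 1 := by
    intro n
    rw [← sq_le_one_iff_abs_le_one]
    have h5 : (ξ n).re ^ 2 + (ξ n).im ^ 2 ≤ 1 := by
      have h6 := hξ n
      have h7 : ‖ξ n‖ ^ 2 ≤ 1 := by
        have := norm_nonneg (ξ n)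
        nlinarith
      rw [← Complex.normSq_eq_norm_sq, Complex.normSq_apply] at h7
      nlinarith
    simp only [hu]
    nlinarith [sq_nonneg (c * (ξ n).im - s * (ξ n).re)]
  have hsum : ∑ n ∈ Ioc Y X, u n * Pk l k n = ‖Z‖ := by
    have h5 : Z.re = ∑ n ∈ Ioc Y X, (ξ n).re * Pk l k n := by
      rw [hZ, Complex.re_sum]
      apply sum_congr rfl
      intro n _
      simp
    have h6 : Z.im = ∑ n ∈ Ioc Y X, (ξ n).im * Pk l k n := by
      rw [hZ, Complex.im_sum]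
      apply sum_congr rfl
      intro n _
      simp
    have h7 : ∑ n ∈ Ioc Y X, u n * Pk l k n = c * Z.re + s * Z.im := by
      rw [h5, h6, mul_sum, mul_sum, ← sum_add_distrib]
      apply sum_congr rfl
      intro n _
      simp only [hu]; ring
    rw [h7, hc, hs]
    have h8 : ‖Z‖ * ‖Z‖ = Z.re * Z.re + Z.im * Z.im := by
      rw [← Complex.normSq_apply, Complex.normSq_eq_norm_sq]; ring
    field_simp
    nlinarith
  have hstep := twist_step hl k hub hYX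
  rw [hsum] at hstep
  have hexp : ∑ n ∈ Ioc Y X, (u n * u (n + 1) * l n) * l (n + k) =
      c * c * (∑ n ∈ Ioc Y X, ((ξ n).re * (ξ (n + 1)).re * l n) * l (n + k)) +
      c * s * (∑ n ∈ Ioc Y X, ((ξ n).re * (ξ (n + 1)).im * l n) * l (n + k)) +
      s * c * (∑ n ∈ Ioc Y X, ((ξ n).im * (ξ (n + 1)).re * l n) * l (n + k)) +
      s * s * (∑ n ∈ Ioc Y X, ((ξ n).im * (ξ (n + 1)).im * l n) * l (n + k)) := by
    simp only [mul_sum]
    rw [← sum_add_distrib, ← sum_add_distrib, ← sum_add_distrib]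
    apply sum_congr rfl
    intro n _
    simp only [hu]; ring
  have hb : ∀ {p q S : ℝ}, |p| ≤ 1 → |q| ≤ 1 → |S| ≤ M → p * q * S ≤ M := by
    intro p q S hp hq hS
    refine (le_abs_self _).trans ?_
    rw [abs_mul, abs_mul]
    have h5 : |p| * |q| ≤ 1 := mul_le_one₀ hp (abs_nonneg _) hq
    calc |p| * |q| * |S| ≤ 1 * M := mul_le_mul h5 hS (abs_nonneg _) (by norm_num)
      _ = M := one_mul M
  have e1 := hb hc1 hc1 h1
  have e2 := hb hc1 hs1 h2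
  have e3 := hb hs1 hc1 h3
  have e4 := hb hs1 hs1 h4
  rw [hexp] at hstep
  linarith

/-- All but few members of a family of lengths: from four correlations with almost all shifts. -/
lemma twist_num (hl : ∀ n, l n = 1 ∨ l n = -1) {N : ℕ} {η : ℝ} {I : Finset ℕ} {k : ℕ → ℕ} {G : ℕ → Prop} {B : ℝ}
    (hP : ∀ g : ℕ → ℝ, (∀ n, |g n| ≤ 1) → num I (fun m => G m ∧ ¬ ∀ Y X : ℕ, Y ≤ X → X ≤ N →
      |∑ n ∈ Ioc Y X, g n * l (n + k m)| ≤ η * N) ≤ B)
    {ξ : ℕ → ℂ} (hξ : ∀ n, ‖ξ n‖ ≤ 1) :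
    num I (fun m => G m ∧ ¬ ∀ Y X : ℕ, Y ≤ X → X ≤ N →
      ‖∑ n ∈ Ioc Y X, ξ n * (Pk l (k m) n : ℂ)‖ ≤ ((X:ℝ) - Y) / 2 + 2 * (η * N) + 1) ≤ 4 * B := by
  classical
  have hre : ∀ n, |(ξ n).re| ≤ 1 := fun n => (Complex.abs_re_le_norm _).trans (hξ n)
  have him : ∀ n, |(ξ n).im| ≤ 1 := fun n => (Complex.abs_im_le_norm _).trans (hξ n)
  have hb : ∀ {p q r : ℝ}, |p| ≤ 1 → |q| ≤ 1 → |r| = 1 → |p * q * r| ≤ 1 := by
    intro p q r hp hq hr
    rw [abs_mul, abs_mul, hr, mul_one]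
    exact mul_le_one₀ hp (abs_nonneg _) hq
  have h1 := hP (fun n => (ξ n).re * (ξ (n + 1)).re * l n) (fun n => hb (hre n) (hre _) (l_abs hl n))
  have h2 := hP (fun n => (ξ n).re * (ξ (n + 1)).im * l n) (fun n => hb (hre n) (him _) (l_abs hl n))
  have h3 := hP (fun n => (ξ n).im * (ξ (n + 1)).re * l n) (fun n => hb (him n) (hre _) (l_abs hl n))
  have h4 := hP (fun n => (ξ n).im * (ξ (n + 1)).im * l n) (fun n => hb (him n) (him _) (l_abs hl n))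
  have h5 := (num_or I _ _).trans (add_le_add h1 h2)
  have h6 := (num_or I _ _).trans (add_le_add h3 h4)
  have h7 := (num_or I _ _).trans (add_le_add h5 h6)
  refine (num_mono ?_).trans (h7.trans (le_of_eq (by ring)))
  intro m _ hm
  by_contra hcon
  push Not at hcon
  obtain ⟨⟨a1, a2⟩, ⟨a3, a4⟩⟩ := hcon
  apply hm.2
  intro Y X hYX hX
  exact twist_le hl (k m) hξ hYX (a1 hm.1 Y X hYX hX) (a2 hm.1 Y X hYX hX) (a3 hm.1 Y X hYX hX) (a4 hm.1 Y X hYX hX)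

end Pool.Agent.TH893.CL
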