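import Pool.Agent.TH893.CL.Main
import Pool.Agent.TH823.MRS.Circ5

set_option autoImplicit false

namespace Pool.Agent.TH893.CL

open Finset
open Pool.Agent.TH823.MRS (gen pol nu nu_eq nu_mono Sm ExpoSmall liR_E)
open Pool.Agent.H373R2.T7 (exI energy liR liR_norm)

/-- The Liouville function along a progression. -/
noncomputable def lr (a b n : ℕ) : ℝ := (-1 : ℝ) ^ ArithmeticFunction.cardFactors (a * n + b)

lemma lr_pm (a b n : ℕ) : lr a b n = 1 ∨ lr a b n = -1 := neg_one_pow_eq_or ℝ _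

lemma exI_liR {m : ℤ} {k : ℕ} (hk : 1 ≤ k) (h : m = k) :
    exI liR m = (((-1 : ℝ) ^ ArithmeticFunction.cardFactors k : ℝ) : ℂ) := by
  subst h
  unfold exI liR
  rw [if_pos (by exact_mod_cast hk)]
  simp

lemma sum_Ioc_sub {E : Type*} [AddCommGroup E] (f : ℕ → E) {Y X : ℕ} (h : Y ≤ X) :
    ∑ n ∈ Ioc Y X, f n = ∑ n ∈ Icc 1 X, f n - ∑ n ∈ Icc 1 Y, f n := by
  have h1 : ∀ Z : ℕ, Icc 1 Z = Ioc 0 Z := by intro Z; ext n; simp only [mem_Icc, mem_Ioc]; omega
  rw [h1, h1, ← sum_Ioc_consecutive f (Nat.zero_le Y) h]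
  abel

lemma plus_of_Sm {a b N k : ℕ} (ha : 1 ≤ a) (hk : 1 ≤ k) {ε : ℝ} {g : ℕ → ℝ}
    (h : Sm liR 1 3 (a * N) ε (fun _ => a) (fun _ => (b : ℤ)) (fun _ n => ((g n : ℝ) : ℂ)) ((a : ℤ) * k))
    {Y X : ℕ} (hYX : Y ≤ X) (hX : X ≤ 3 * N) :
    |∑ n ∈ Ioc Y X, g n * lr a b (n + k)| ≤ 2 * ε * a * N := by
  have key : ∀ Z : ℕ, Z ≤ 3 * N → ‖∑ n ∈ Icc 1 Z, ((g n * lr a b (n + k) : ℝ) : ℂ)‖ ≤ ε * (a * N) := by
    intro Z hZ
    have h1 := h 0 Z (by nlinarith)
    rw [sum_congr rfl (fun n _ => by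
      rw [exI_liR (k := a * (n + k) + b) (by nlinarith) (by push_cast; ring)])] at h1
    push_cast at h1 ⊢
    unfold lr
    push_cast
    exact h1
  have h2 := key X hX
  have h3 := key Y (hYX.trans hX)
  have h4 := sum_Ioc_sub (fun n => ((g n * lr a b (n + k) : ℝ) : ℂ)) hYX
  have h5 : ‖∑ n ∈ Ioc Y X, ((g n * lr a b (n + k) : ℝ) : ℂ)‖ ≤ 2 * ε * a * N := by
    rw [h4]
    refine (norm_sub_le _ _).trans ?_
    linarith
  rw [← Complex.ofReal_sum, Complex.norm_real, Real.norm_eq_abs] at h5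
  exact h5

lemma minus_of_Sm {a b N k : ℕ} (ha : 1 ≤ a) {ε : ℝ} {g : ℕ → ℝ}
    (h : Sm liR 1 3 (a * N) ε (fun _ => a) (fun _ => (b : ℤ)) (fun _ n => ((g n : ℝ) : ℂ)) (-(a : ℤ) * k))
    {Y X : ℕ} (hYX : Y ≤ X) (hX : X + k ≤ 3 * N) :
    |∑ n ∈ Ioc Y X, lr a b n * g (n + k)| ≤ 2 * ε * a * N := by
  set f : ℕ → ℂ := fun m => ((g m : ℝ) : ℂ) * exI liR ((a : ℤ) * m + b + -(a : ℤ) * k) with hf
  have key : ∀ Z : ℕ, Z ≤ 3 * N → ‖∑ n ∈ Icc 1 Z, f n‖ ≤ ε * (a * N) := by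
    intro Z hZ
    have h1 := h 0 Z (by nlinarith)
    push_cast at h1
    exact h1
  have h2 := key (X + k) hX
  have h3 := key (Y + k) (by omega)
  have h4 := sum_Ioc_sub f (by omega : Y + k ≤ X + k)
  have h5 : ‖∑ n ∈ Ioc (Y + k) (X + k), f n‖ ≤ 2 * ε * a * N := by
    rw [h4]
    refine (norm_sub_le _ _).trans ?_
    linarith
  rw [← Finset.image_add_right_Ioc, sum_image (fun x _ y _ h => by simpa using h)] at h5
  have h6 : ∑ n ∈ Ioc Y X, f (n + k) = ((∑ n ∈ Ioc Y X, lr a b n * g (n + k) : ℝ) : ℂ) := by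
    push_cast
    apply sum_congr rfl
    intro n hn
    have hn1 := (mem_Ioc.1 hn).1
    simp only [hf]
    rw [exI_liR (k := a * n + b) (by nlinarith [Nat.zero_le Y]) (by push_cast; ring)]
    unfold lr
    push_cast
    ring
  rw [h6, Complex.norm_real, Real.norm_eq_abs] at h5
  exact h5

lemma num_eq_nu (I : Finset ℕ) (E : ℕ → Prop) : num I E = nu I E := by
  classical
  unfold num nu
  congr!

/-- The Liouville function along a progression is uncorrelated with arbitrary functions for almost all shifts. -/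
theorem plus_minus {a : ℕ} (ha : 1 ≤ a) {η : ℝ} (hη : 0 < η) : ∃ H₀ N₀ : ℕ, ∀ N H : ℕ, N₀ ≤ N → H₀ ≤ H → H ≤ N →
    ∀ b : ℕ, b ≤ N → Plus (lr a b) N H η ∧ Minus (lr a b) N H η := by
  have ha0 : (0:ℝ) < a := by exact_mod_cast ha
  have hε' : 0 < min η (η / (2 * a)) := by positivity
  have hdeg : ∀ c : ℤ, c ≠ 0 → (Polynomial.C c * Polynomial.X : Polynomial ℤ).natDegree = 1 := by
    intro c hc
    exact Polynomial.natDegree_C_mul_X c hc
  have ha' : (a : ℤ) ≠ 0 := by exact_mod_cast (by omega : a ≠ 0)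
  obtain ⟨H₁, N₁, h1⟩ := pol liR liR_norm liR_E 3 1 _ hε' (Polynomial.C (a : ℤ) * Polynomial.X) (hdeg _ ha').ge 1
  obtain ⟨H₂, N₂, h2⟩ := pol liR liR_norm liR_E 3 1 _ hε' (Polynomial.C (-(a : ℤ)) * Polynomial.X)
    (hdeg _ (neg_ne_zero.2 ha')).ge 1
  refine ⟨max H₁ H₂, max N₁ N₂, ?_⟩
  intro N H hN hH hHN b hb
  have hle : N ≤ a * N := Nat.le_mul_of_pos_left _ (by omega)
  have hbN : (b : ℤ) ≤ (3 : ℕ) * ((a * N : ℕ) : ℤ) := by
    push_cast
    have : (b : ℤ) ≤ a * N := by exact_mod_cast hb.trans hle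
    have h0 : (0:ℤ) ≤ a * N := by positivity
    linarith
  have hfin : ∀ {u : ℝ}, u ≤ 2 * (min η (η / (2 * a))) * a * N → u ≤ η * N := by
    intro u hu
    refine hu.trans ?_
    have h3 := min_le_right η (η / (2 * a))
    have h4 : 2 * (min η (η / (2 * a))) * a * N ≤ 2 * (η / (2 * a)) * a * N := by gcongr
    refine h4.trans (le_of_eq ?_)
    field_simp
  constructor
  · intro g hg
    have h3 := h1 (a * N) H (by have := le_max_left N₁ N₂; omega) ((le_max_left _ _).trans hH) (hHN.trans hle) H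
      (by rw [hdeg _ ha']; simp) (by rw [hdeg _ ha']; simp) (fun _ => a) (fun _ => (b : ℤ))
      (fun _ n => ((g n : ℝ) : ℂ)) (fun _ => ha) (fun _ => hbN)
      (fun _ n => by rw [Complex.norm_real]; exact hg n)
    rw [← num_eq_nu] at h3
    refine (num_mono ?_).trans (h3.trans ?_)
    · intro k hk hno hS
      apply hno
      intro Y X hYX hX
      have hk1 := (mem_Icc.1 hk).1
      simp only [Polynomial.eval_mul, Polynomial.eval_C, Polynomial.eval_X] at hS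
      exact hfin (plus_of_Sm ha hk1 hS hYX (by omega))
    · exact mul_le_mul_of_nonneg_right (min_le_left _ _) (Nat.cast_nonneg _)
  · intro g hg
    have h3 := h2 (a * N) H (by have := le_max_right N₁ N₂; omega) ((le_max_right _ _).trans hH) (hHN.trans hle) H
      (by rw [hdeg _ (neg_ne_zero.2 ha')]; simp) (by rw [hdeg _ (neg_ne_zero.2 ha')]; simp) (fun _ => a) (fun _ => (b : ℤ))
      (fun _ n => ((g n : ℝ) : ℂ)) (fun _ => ha) (fun _ => hbN)
      (fun _ n => by rw [Complex.norm_real]; exact hg n)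
    rw [← num_eq_nu] at h3
    refine (num_mono ?_).trans (h3.trans ?_)
    · intro k hk hno hS
      apply hno
      intro Y X hYX hX
      have hk2 := (mem_Icc.1 hk).2
      simp only [Polynomial.eval_mul, Polynomial.eval_C, Polynomial.eval_X] at hS
      exact hfin (minus_of_Sm ha hS hYX (by omega))
    · exact mul_le_mul_of_nonneg_right (min_le_left _ _) (Nat.cast_nonneg _)

end Pool.Agent.TH893.CL
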