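import Mathlib

/-!
# Products of consecutive terms of a sign sequence which is uncorrelated with almost all shifts
-/

set_option autoImplicit false

namespace Pool.Agent.TH893.CL

open Finset

open Classical in
/-- The number of the elements of the finite set `I` with the property `E`. -/
noncomputable def num (I : Finset ℕ) (E : ℕ → Prop) : ℝ := ((I.filter E).card : ℝ)

lemma num_nonneg (I : Finset ℕ) (E : ℕ → Prop) : 0 ≤ num I E := by
  unfold num; positivity

lemma num_mono {I : Finset ℕ} {E G : ℕ → Prop} (h : ∀ m ∈ I, E m → G m) : num I E ≤ num I G := by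
  classical
  unfold num
  apply Nat.cast_le.2
  apply card_le_card
  intro m hm
  rw [mem_filter] at hm ⊢
  exact ⟨hm.1, h m hm.1 hm.2⟩

lemma num_le_card (I : Finset ℕ) (E : ℕ → Prop) : num I E ≤ I.card := by
  classical
  unfold num
  exact_mod_cast card_filter_le _ _

lemma num_or (I : Finset ℕ) (E G : ℕ → Prop) : num I (fun m => E m ∨ G m) ≤ num I E + num I G := by
  classical
  unfold num
  rw [← Nat.cast_add, Nat.cast_le]
  refine (card_le_card ?_).trans (card_union_le _ _)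
  intro m hm
  simp only [mem_filter, mem_union] at hm ⊢
  tauto

/-- union bound over a finite set of events -/
lemma num_exists {ι : Type*} (T : Finset ι) (I : Finset ℕ) (E : ι → ℕ → Prop) :
    num I (fun m => ∃ t ∈ T, E t m) ≤ ∑ t ∈ T, num I (E t) := by
  classical
  induction T using Finset.induction_on with
  | empty => simp [num]
  | insert t T ht ih =>
    rw [sum_insert ht]
    calc num I (fun m => ∃ s ∈ insert t T, E s m) ≤ num I (fun m => E t m ∨ ∃ s ∈ T, E s m) := by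
          apply num_mono
          intro m _ hm
          obtain ⟨s, hs, hE⟩ := hm
          rcases mem_insert.1 hs with rfl | hs
          · exact Or.inl hE
          · exact Or.inr ⟨s, hs, hE⟩
      _ ≤ _ := (num_or _ _ _).trans (by linarith)

/-- Sum of a nonnegative function which is mostly small. -/
lemma sum_le_of_num {I : Finset ℕ} {f : ℕ → ℝ} {u M : ℝ} (hu : 0 ≤ u) (hM : ∀ k ∈ I, f k ≤ M) :
    ∑ k ∈ I, f k ≤ I.card * u + M * num I (fun k => ¬ f k ≤ u) := by
  classical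
  have h1 : ∀ k ∈ I, f k ≤ u + M * (if ¬ f k ≤ u then 1 else 0) := by
    intro k hk
    by_cases h : f k ≤ u
    · rw [if_neg (not_not.2 h)]; linarith
    · rw [if_pos h]; linarith [hM k hk]
  refine (sum_le_sum h1).trans (le_of_eq ?_)
  rw [sum_add_distrib, sum_const, nsmul_eq_mul, ← mul_sum]
  unfold num
  congr 2
  rw [Finset.sum_boole]
  congr!

variable (l : ℕ → ℝ)

/-- the partial products -/
def F (n : ℕ) : ℝ := ∏ m ∈ range n, l m

/-- the product of `k` consecutive terms -/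
def Pk (k n : ℕ) : ℝ := ∏ j ∈ range k, l (n + j)

/-- the sums -/
def SS (k Y X : ℕ) : ℝ := ∑ n ∈ Ioc Y X, Pk l k n

variable {l}

lemma F_succ (n : ℕ) : F l (n + 1) = F l n * l n := by
  unfold F; rw [prod_range_succ]

lemma sq_one (hl : ∀ n, l n = 1 ∨ l n = -1) (n : ℕ) : l n * l n = 1 := by
  rcases hl n with h | h <;> rw [h] <;> norm_num

lemma F_mul_self (hl : ∀ n, l n = 1 ∨ l n = -1) (n : ℕ) : F l n * F l n = 1 := by
  unfold F
  rw [← prod_mul_distrib]
  exact prod_eq_one fun m _ => sq_one hl m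

lemma F_abs (hl : ∀ n, l n = 1 ∨ l n = -1) (n : ℕ) : |F l n| = 1 := by
  have h := F_mul_self hl n
  have h2 : |F l n| * |F l n| = 1 := by rw [← abs_mul, h, abs_one]
  have h3 : 0 ≤ |F l n| := abs_nonneg _
  nlinarith

lemma Pk_eq (hl : ∀ n, l n = 1 ∨ l n = -1) (k n : ℕ) : Pk l k n = F l n * F l (n + k) := by
  have h : F l (n + k) = F l n * Pk l k n := by
    unfold F Pk; rw [prod_range_add]
  rw [h, ← mul_assoc, F_mul_self hl, one_mul]

lemma Pk_abs (hl : ∀ n, l n = 1 ∨ l n = -1) (k n : ℕ) : |Pk l k n| = 1 := by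
  rw [Pk_eq hl, abs_mul, F_abs hl, F_abs hl, one_mul]

/-- pointwise inequality -/
lemma pw {d e x y : ℝ} (hd : |d| ≤ 1 + x) (he : |e| ≤ 1 + y) (hx0 : 0 ≤ x) (hy0 : 0 ≤ y) (hx : x ≤ 1) (hy : y ≤ 1) :
    |d + e| ≤ 1 + d * e + 3 * (x + y) := by
  rw [abs_le] at hd he
  obtain ⟨hd1, hd2⟩ := hd
  obtain ⟨he1, he2⟩ := he
  have key : ∀ p q : ℝ, -x ≤ p → -y ≤ q → p ≤ 3 → q ≤ 3 → -(3 * (x + y)) ≤ p * q := by
    intro p q hp hq hp3 hq3
    rcases le_total 0 p with h1 | h1
    · rcases le_total 0 q with h2 | h2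
      · have := mul_nonneg h1 h2; linarith
      · have h3 : p * (-q) ≤ 3 * y := mul_le_mul hp3 (by linarith) (by linarith) (by norm_num)
        nlinarith
    · rcases le_total 0 q with h2 | h2
      · have h3 : q * (-p) ≤ 3 * x := mul_le_mul hq3 (by linarith) (by linarith) (by norm_num)
        nlinarith
      · have := mul_nonneg_of_nonpos_of_nonpos h1 h2; linarith
  rw [abs_le]
  constructor
  · have := key (1 + d) (1 + e) (by linarith) (by linarith) (by linarith) (by linarith)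
    nlinarith
  · have := key (1 - d) (1 - e) (by linarith) (by linarith) (by linarith) (by linarith)
    nlinarith

section main

variable (l)

/-- The average over `K` of the combination of two neighbouring partial products. -/
noncomputable def D (K : Finset ℕ) (τ : ℝ) (n : ℕ) : ℝ := (∑ k ∈ K, (F l (n + k) + τ * F l (n + k + 1))) / K.card

/-- The average over `K` of the shifts. -/
noncomputable def A (K : Finset ℕ) (n : ℕ) : ℝ := (∑ k ∈ K, l (n + k)) / K.card

variable {l}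

lemma l_abs (hl : ∀ n, l n = 1 ∨ l n = -1) (n : ℕ) : |l n| = 1 := by
  rcases hl n with h | h <;> rw [h] <;> norm_num

lemma A_abs (hl : ∀ n, l n = 1 ∨ l n = -1) {K : Finset ℕ} (hK : K.Nonempty) (n : ℕ) : |A l K n| ≤ 1 := by
  unfold A
  have hc : (0:ℝ) < K.card := by exact_mod_cast hK.card_pos
  rw [abs_div, abs_of_pos hc, div_le_one hc]
  refine (abs_sum_le_sum_abs _ _).trans ?_
  rw [sum_congr rfl fun k _ => l_abs hl (n + k), sum_const, nsmul_eq_mul, mul_one]

lemma D_abs (hl : ∀ n, l n = 1 ∨ l n = -1) {K : Finset ℕ} (hK : K.Nonempty) {τ : ℝ} (hτ : τ = 1 ∨ τ = -1) (n : ℕ) :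
    |D l K τ n| ≤ 1 + |A l K n| := by
  unfold D A
  have hc : (0:ℝ) < K.card := by exact_mod_cast hK.card_pos
  rw [abs_div, abs_of_pos hc, div_le_iff₀ hc, abs_div, abs_of_pos hc, add_mul, div_mul_cancel₀ _ hc.ne', one_mul]
  refine (abs_sum_le_sum_abs _ _).trans ?_
  have h1 : ∀ k ∈ K, |F l (n + k) + τ * F l (n + k + 1)| = 1 + τ * l (n + k) := by
    intro k _
    rw [F_succ]
    have h2 : F l (n + k) + τ * (F l (n + k) * l (n + k)) = F l (n + k) * (1 + τ * l (n + k)) := by ring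
    rw [h2, abs_mul, F_abs hl, one_mul, abs_of_nonneg]
    rcases hτ with rfl | rfl <;> rcases hl (n + k) with h | h <;> rw [h] <;> norm_num
  rw [sum_congr rfl h1, sum_add_distrib, sum_const, nsmul_eq_mul, mul_one, ← mul_sum]
  have h3 : τ * ∑ k ∈ K, l (n + k) ≤ |τ * ∑ k ∈ K, l (n + k)| := le_abs_self _
  rw [abs_mul] at h3
  have h4 : |τ| = 1 := by rcases hτ with rfl | rfl <;> norm_num
  rw [h4, one_mul] at h3
  linarith

/-- The main inequality. -/
lemma main_ineq (hl : ∀ n, l n = 1 ∨ l n = -1) {K : Finset ℕ} (hK : K.Nonempty) {τ : ℝ} (hτ : τ = 1 ∨ τ = -1)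
    {Y X : ℕ} (hYX : Y ≤ X) :
    2 * |∑ n ∈ Ioc Y X, F l n * D l K τ n| ≤ ((X:ℝ) - Y) + |∑ n ∈ Ioc Y X, l n * (D l K τ n * D l K τ (n + 1))|
      + 3 * (∑ n ∈ Ioc Y X, |A l K n| + ∑ n ∈ Ioc Y X, |A l K (n + 1)|) + 4 := by
  set f : ℕ → ℝ := fun n => F l n * D l K τ n with hf
  have hfb : ∀ n, |f n| ≤ 2 := by
    intro n
    simp only [hf, abs_mul, F_abs hl, one_mul]
    have := D_abs hl hK hτ n
    have := A_abs hl hK n
    linarith
  have hshift : ∑ n ∈ Ioc Y X, f (n + 1) = ∑ n ∈ Ioc Y X, f n + f (X + 1) - f (Y + 1) := by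
    induction X, hYX using Nat.le_induction with
    | base => simp
    | succ X hX ih =>
      rw [← Finset.insert_Ioc_right_eq_Ioc_add_one (by omega), sum_insert (by simp), sum_insert (by simp), ih]
      ring
  have h1 : 2 * |∑ n ∈ Ioc Y X, f n| ≤ |∑ n ∈ Ioc Y X, (f n + f (n + 1))| + 4 := by
    have h2 : 2 * ∑ n ∈ Ioc Y X, f n = ∑ n ∈ Ioc Y X, (f n + f (n + 1)) - (f (X + 1) - f (Y + 1)) := by
      rw [sum_add_distrib, hshift]; ring
    have h3 : 2 * |∑ n ∈ Ioc Y X, f n| = |2 * ∑ n ∈ Ioc Y X, f n| := by rw [abs_mul]; norm_num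
    rw [h3, h2]
    have h4 := abs_sub (∑ n ∈ Ioc Y X, (f n + f (n + 1))) (f (X + 1) - f (Y + 1))
    have h5 := abs_sub (f (X + 1)) (f (Y + 1))
    have h6 := hfb (X + 1)
    have h7 := hfb (Y + 1)
    linarith
  refine h1.trans ?_
  have h8 : |∑ n ∈ Ioc Y X, (f n + f (n + 1))| ≤
      ∑ n ∈ Ioc Y X, (1 + l n * (D l K τ n * D l K τ (n + 1)) + 3 * (|A l K n| + |A l K (n + 1)|)) := by
    refine (abs_sum_le_sum_abs _ _).trans (sum_le_sum fun n _ => ?_)
    have h9 : f n + f (n + 1) = F l n * (D l K τ n + l n * D l K τ (n + 1)) := by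
      simp only [hf]; rw [F_succ]; ring
    rw [h9, abs_mul, F_abs hl, one_mul]
    have h10 : |l n * D l K τ (n + 1)| ≤ 1 + |A l K (n + 1)| := by
      rw [abs_mul, l_abs hl, one_mul]; exact D_abs hl hK hτ (n + 1)
    have h11 := pw (D_abs hl hK hτ n) h10 (abs_nonneg _) (abs_nonneg _) (A_abs hl hK n) (A_abs hl hK (n + 1))
    calc _ ≤ _ := h11
      _ = _ := by ring
  have h13 : ∑ n ∈ Ioc Y X, (1 + l n * (D l K τ n * D l K τ (n + 1)) + 3 * (|A l K n| + |A l K (n + 1)|)) =
      ((X:ℝ) - Y) + ∑ n ∈ Ioc Y X, l n * (D l K τ n * D l K τ (n + 1)) +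
        3 * (∑ n ∈ Ioc Y X, |A l K n| + ∑ n ∈ Ioc Y X, |A l K (n + 1)|) := by
    rw [sum_add_distrib, sum_add_distrib, sum_const, Nat.card_Ioc, nsmul_eq_mul, mul_one, ← mul_sum, sum_add_distrib,
      Nat.cast_sub hYX]
  rw [h13] at h8
  have h12 := le_abs_self (∑ n ∈ Ioc Y X, l n * (D l K τ n * D l K τ (n + 1)))
  linarith

end main

end Pool.Agent.TH893.CL
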