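import Pool.Agent.TH893.CL.Black
import Pool.Agent.TH893.CL.Twist

set_option autoImplicit false

namespace Pool.Agent.TH893.CL

open Finset
open Pool.Agent.TH823.MRS (gen pol nu nu_eq nu_mono Sm ExpoSmall liR_E pp_family pp_lower)
open Pool.Agent.Helper602.MK (PP)
open Pool.Agent.H373R2.T7 (exI energy liR liR_norm)

/-- the energy does not change under dilations -/
lemma energy_scale {t : ℕ} (ht : 1 ≤ t) (p x : ℕ) (s : ℕ → ℤ) : energy p x (fun m => (t : ℤ) * s m) = energy p x s := by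
  unfold energy
  congr 1
  apply filter_congr
  intro q _
  have h0 : (t : ℤ) ≠ 0 := by exact_mod_cast (by omega : t ≠ 0)
  rw [← mul_sum, ← mul_sum, mul_right_inj' h0]

/-- Shifts by the multiples of the primes by a fixed number; adapted from `Pool.Agent.TH823.MRS.pri`. -/
lemma priA (h : ℕ → ℂ) (hb : ∀ n, ‖h n‖ ≤ 1) (hE : ExpoSmall h) (B L : ℕ) (ε : ℝ) (hε : 0 < ε) (t : ℕ) (ht : 1 ≤ t) :
    ∃ H₀ N₀ : ℕ, ∀ N H : ℕ, N₀ ≤ N → H₀ ≤ H → t * H ≤ N →
      ∀ (a : Fin L → ℕ) (b : Fin L → ℤ) (g : Fin L → ℕ → ℂ),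
      (∀ l, 1 ≤ a l) → (∀ l, b l ≤ B * N) → (∀ l n, ‖g l n‖ ≤ 1) →
      nu ((Icc 1 H).filter Nat.Prime) (fun q => ¬ Sm h L B N ε a b g ((t : ℤ) * q)) ≤ ε * Nat.primeCounting H := by
  classical
  obtain ⟨C, hC, k0, hk0, hfam⟩ := pp_family
  obtain ⟨k1, hk1, hlow⟩ := pp_lower
  obtain ⟨H₀, N₀, h1⟩ := gen h hb hE B L (ε / 2) (by positivity) 2 (t * C)
  obtain ⟨n1, hlog⟩ := Pool.Agent.TH823.Fam.log_pow_small 4
  refine ⟨H₀ + k0 + k1 + n1 + ⌈(64 / ε ^ 2) ^ 2⌉₊, N₀, fun N H hN hH hHN a b g ha hbl hg => ?_⟩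
  obtain ⟨s, hs1, hs2, hs3, hs4⟩ := hfam H (by omega)
  have ht0 : (0 : ℝ) < t := by exact_mod_cast ht
  have hHt : H ≤ t * H := Nat.le_mul_of_pos_left _ (by omega)
  have h2 := h1 N (t * H) hN (by omega) hHN (PP H).card (fun m => (t : ℤ) * s m) (by
    intro m hm
    rw [abs_mul, Nat.abs_cast]
    push_cast
    exact mul_le_mul_of_nonneg_left (hs1 m hm) (by positivity)) (by
    rw [energy_scale ht]
    push_cast
    calc (energy 2 (PP H).card s : ℝ) * (t * H) = t * ((energy 2 (PP H).card s : ℝ) * H) := by ring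
      _ ≤ t * (C * ((PP H).card : ℝ) ^ (2 * 2)) := mul_le_mul_of_nonneg_left hs2 ht0.le
      _ = _ := by ring) a b g ha hbl hg
  have h3 := hs3 (fun q : ℕ => ¬ Sm h L B N (ε / 2) a b g ((t : ℤ) * q))
  have h4 : (((PP H).filter (fun q : ℕ => ¬ Sm h L B N (ε / 2) a b g ((t : ℤ) * q))).card : ℝ) ≤ ε / 2 * (PP H).card := by
    rw [h3]
    refine le_trans (le_of_eq ?_) h2
    rw [nu_eq]
    congr 1
    congr 1
    apply filter_congr
    intro m hm
    rw [Int.toNat_of_nonneg (hs4 m hm)]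
  have hN0 : (0 : ℝ) ≤ N := Nat.cast_nonneg _
  have hsm : ∀ q : ℤ, Sm h L B N (ε / 2) a b g q → Sm h L B N ε a b g q := by
    intro q hq l X hX
    refine (hq l X hX).trans ?_
    nlinarith
  have hHr : (3 : ℝ) ≤ H := by exact_mod_cast (by omega : 3 ≤ H)
  have hlog0 : 0 < Real.log H := Real.log_pos (by linarith)
  have hpc : Nat.primeCounting H = ((Icc 1 H).filter Nat.Prime).card := by
    rw [Nat.primeCounting, Nat.primeCounting', Nat.count_eq_card_filter_range]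
    congr 1
    ext p
    simp only [mem_filter, mem_range, mem_Icc]
    constructor
    · rintro ⟨h5, h6⟩
      exact ⟨⟨h6.one_lt.le, by omega⟩, h6⟩
    · rintro ⟨h5, h6⟩
      exact ⟨by omega, h6⟩
  have hPP : PP H ⊆ (Icc 1 H).filter Nat.Prime := by
    intro p hp
    unfold PP at hp
    rw [mem_filter] at hp ⊢
    exact ⟨hp.1, hp.2.1⟩
  have hPPc : ((PP H).card : ℝ) ≤ Nat.primeCounting H := by
    rw [hpc]
    exact_mod_cast card_le_card hPP
  -- the small primes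
  have hsq : (Nat.sqrt H : ℝ) ≤ ε / 2 * Nat.primeCounting H := by
    have h5 := hlow H (by omega)
    have h6 := hlog H (by omega)
    have h7 : (64 / ε ^ 2) ^ 2 ≤ (H : ℝ) :=
      (Nat.le_ceil _).trans (by exact_mod_cast (by omega : ⌈(64 / ε ^ 2) ^ 2⌉₊ ≤ H))
    have h8 : (Nat.sqrt H : ℝ) ^ 2 ≤ H := by
      have := Nat.sqrt_le' H
      exact_mod_cast this
    have h9 : 64 / ε ^ 2 * Real.log H ^ 2 ≤ H := by
      have h10 : (64 / ε ^ 2 * Real.log H ^ 2) ^ 2 ≤ (H : ℝ) ^ 2 := by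
        calc (64 / ε ^ 2 * Real.log H ^ 2) ^ 2 = (64 / ε ^ 2) ^ 2 * Real.log H ^ 4 := by ring
          _ ≤ (H : ℝ) * H := by
              apply mul_le_mul h7 _ (by positivity) (by linarith)
              have : 0 ≤ Real.log H ^ 4 := by positivity
              linarith
          _ = (H : ℝ) ^ 2 := by ring
      exact (pow_le_pow_iff_left₀ (by positivity) (by linarith) (by norm_num)).1 h10
    have h10 : (Nat.sqrt H : ℝ) * (8 / ε * Real.log H) ≤ H := by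
      have h11 : ((Nat.sqrt H : ℝ) * (8 / ε * Real.log H)) ^ 2 ≤ (H : ℝ) ^ 2 := by
        calc ((Nat.sqrt H : ℝ) * (8 / ε * Real.log H)) ^ 2 = (Nat.sqrt H : ℝ) ^ 2 * (64 / ε ^ 2 * Real.log H ^ 2) := by ring
          _ ≤ (H : ℝ) * H := mul_le_mul h8 h9 (by positivity) (by linarith)
          _ = (H : ℝ) ^ 2 := by ring
      exact (pow_le_pow_iff_left₀ (by positivity) (by linarith) (by norm_num)).1 h11
    have h11 : (Nat.sqrt H : ℝ) ≤ ε / 8 * (H / Real.log H) := by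
      rw [← mul_div_assoc, le_div_iff₀ hlog0]
      have e1 : (Nat.sqrt H : ℝ) * Real.log H = ε / 8 * (Nat.sqrt H * (8 / ε * Real.log H)) := by
        field_simp
      rw [e1]
      exact mul_le_mul_of_nonneg_left h10 (by positivity)
    refine h11.trans ?_
    calc ε / 8 * (H / Real.log H) ≤ ε / 8 * (4 * (PP H).card) := mul_le_mul_of_nonneg_left h5 (by positivity)
      _ = ε / 2 * (PP H).card := by ring
      _ ≤ _ := mul_le_mul_of_nonneg_left hPPc (by positivity)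
  have hsub : ((Icc 1 H).filter Nat.Prime).filter (fun q : ℕ => ¬ Sm h L B N ε a b g ((t : ℤ) * q)) ⊆
      (PP H).filter (fun q : ℕ => ¬ Sm h L B N (ε / 2) a b g ((t : ℤ) * q)) ∪ Icc 1 (Nat.sqrt H) := by
    intro q hq
    rw [mem_filter, mem_filter, mem_Icc] at hq
    rw [mem_union]
    by_cases h6 : H < q ^ 2
    · left
      unfold PP
      rw [mem_filter, mem_filter, mem_Icc]
      exact ⟨⟨hq.1.1, hq.1.2, h6⟩, fun hcon => hq.2 (hsm _ hcon)⟩
    · right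
      rw [mem_Icc]
      refine ⟨hq.1.1.1, ?_⟩
      rw [Nat.le_sqrt]
      nlinarith
  rw [nu_eq]
  have h5 := (card_le_card hsub).trans (card_union_le _ _)
  rw [Nat.card_Icc, Nat.add_sub_cancel] at h5
  calc ((((Icc 1 H).filter Nat.Prime).filter (fun q : ℕ => ¬ Sm h L B N ε a b g ((t : ℤ) * q))).card : ℝ) ≤
        ((PP H).filter (fun q : ℕ => ¬ Sm h L B N (ε / 2) a b g ((t : ℤ) * q))).card + Nat.sqrt H := by exact_mod_cast h5
    _ ≤ ε / 2 * (PP H).card + ε / 2 * Nat.primeCounting H := add_le_add h4 hsq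
    _ ≤ ε / 2 * Nat.primeCounting H + ε / 2 * Nat.primeCounting H := by
        apply add_le_add _ le_rfl
        exact mul_le_mul_of_nonneg_left hPPc (by positivity)
    _ = _ := by ring


/-- half of the trivial bound for the twisted sums -/
def Half (a b N : ℕ) (ε : ℝ) (ξ : ℕ → ℂ) (k : ℕ) : Prop :=
  ∀ Y X : ℕ, Y ≤ X → X ≤ N → ‖∑ n ∈ Ioc Y X, ξ n * (Pk (lr a b) k n : ℂ)‖ ≤ ((X:ℝ) - Y) / 2 + ε * N

lemma fam_core {a b N : ℕ} (ha : 1 ≤ a) {ε ε' : ℝ} (hN : 2 ≤ ε * N) (hε1 : 8 * a * ε' ≤ ε)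
    {I : Finset ℕ} {s : ℕ → ℤ} {Bd : ℝ}
    (h : ∀ g : ℕ → ℝ, (∀ n, |g n| ≤ 1) → nu I (fun m => ¬ Sm liR 1 3 (a * N) ε' (fun _ => a) (fun _ => (b : ℤ))
      (fun _ n => ((g n : ℝ) : ℂ)) ((a : ℤ) * s m)) ≤ Bd)
    {ξ : ℕ → ℂ} (hξ : ∀ n, ‖ξ n‖ ≤ 1) :
    num I (fun m => 0 < s m ∧ ¬ Half a b N ε ξ (s m).toNat) ≤ 4 * Bd := by
  have h1 := twist_num (l := lr a b) (lr_pm a b) (N := N) (η := 2 * ε' * a) (I := I) (k := fun m => (s m).toNat)
    (G := fun m => 0 < s m) (B := Bd) (by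
      intro g hg
      refine le_trans ?_ (h g hg)
      rw [← num_eq_nu]
      apply num_mono
      intro m _ hm hS
      apply hm.2
      intro Y X hYX hX
      have h2 : ((s m).toNat : ℤ) = s m := Int.toNat_of_nonneg hm.1.le
      rw [← h2] at hS
      exact plus_of_Sm ha (by omega) hS hYX (by omega)) hξ
  refine (num_mono ?_).trans h1
  intro m _ hm
  refine ⟨hm.1, fun hcon => hm.2 ?_⟩
  intro Y X hYX hX
  refine (hcon Y X hYX hX).trans ?_
  have hN0 : (0:ℝ) ≤ N := Nat.cast_nonneg _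
  have h3 : 8 * a * ε' * N ≤ ε * N := mul_le_mul_of_nonneg_right hε1 hN0
  nlinarith

/-- General families of lengths. -/
theorem fam_gen {a : ℕ} (ha : 1 ≤ a) {ε : ℝ} (hε : 0 < ε) (p : ℕ) (C : ℝ) :
    ∃ H₀ N₀ : ℕ, ∀ N H : ℕ, N₀ ≤ N → H₀ ≤ H → H ≤ N → ∀ b : ℕ, b ≤ N →
      ∀ (x : ℕ) (s : ℕ → ℤ), (∀ m ∈ Icc 1 x, |s m| ≤ H) → (energy p x s : ℝ) * H ≤ C * (x : ℝ) ^ (2 * p) →
      ∀ ξ : ℕ → ℂ, (∀ n, ‖ξ n‖ ≤ 1) → num (Icc 1 x) (fun m => 0 < s m ∧ ¬ Half a b N ε ξ (s m).toNat) ≤ ε * x := by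
  have ha0 : (0:ℝ) < a := by exact_mod_cast ha
  obtain ⟨H₀, N₀, h1⟩ := gen liR liR_norm liR_E 3 1 (min (ε / 4) (ε / (8 * a))) (by positivity) p (a * C)
  refine ⟨H₀, max N₀ ⌈2 / ε⌉₊, ?_⟩
  intro N H hN hH hHN b hb x s hs hen ξ hξ
  have hle : N ≤ a * N := Nat.le_mul_of_pos_left _ (by omega)
  have hN2 : 2 ≤ ε * N := by
    have h2 : 2 / ε ≤ N := (Nat.le_ceil _).trans (by exact_mod_cast (le_max_right _ _).trans hN)
    rw [div_le_iff₀ hε] at h2; linarith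
  have hbN : (b : ℤ) ≤ (3 : ℕ) * ((a * N : ℕ) : ℤ) := by
    push_cast
    have : (b : ℤ) ≤ a * N := by exact_mod_cast hb.trans hle
    have h0 : (0:ℤ) ≤ a * N := by positivity
    linarith
  have h2 := fam_core (b := b) (s := s) (I := Icc 1 x) (Bd := min (ε / 4) (ε / (8 * a)) * x) ha
    hN2 (by
      have := min_le_right (ε / 4) (ε / (8 * a))
      calc 8 * a * min (ε / 4) (ε / (8 * a)) ≤ 8 * a * (ε / (8 * a)) := by gcongr
        _ = ε := by field_simp) (by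
      intro g hg
      have hHa : H ≤ a * H := Nat.le_mul_of_pos_left _ (by omega)
      exact h1 (a * N) (a * H) (by have := le_max_left N₀ ⌈2 / ε⌉₊; omega) (by omega) (Nat.mul_le_mul_left _ hHN) x
        (fun m => (a : ℤ) * s m) (by
          intro m hm
          rw [abs_mul, Nat.abs_cast]
          push_cast
          exact mul_le_mul_of_nonneg_left (hs m hm) (by positivity)) (by
          rw [energy_scale ha]
          push_cast
          calc (energy p x s : ℝ) * (a * H) = a * ((energy p x s : ℝ) * H) := by ring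
            _ ≤ a * (C * (x : ℝ) ^ (2 * p)) := mul_le_mul_of_nonneg_left hen ha0.le
            _ = _ := by ring) (fun _ => a) (fun _ => (b : ℤ)) (fun _ n => ((g n : ℝ) : ℂ)) (fun _ => ha) (fun _ => hbN)
        (fun _ n => by rw [Complex.norm_real]; exact hg n)) hξ
  refine h2.trans ?_
  have h3 : min (ε / 4) (ε / (8 * a)) * x ≤ ε / 4 * x := mul_le_mul_of_nonneg_right (min_le_left _ _) (Nat.cast_nonneg _)
  linarith

/-- Polynomial lengths. -/
theorem fam_pol {a : ℕ} (ha : 1 ≤ a) {ε : ℝ} (hε : 0 < ε) (f : Polynomial ℤ) (hd : 1 ≤ f.natDegree) (K : ℕ) :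
    ∃ H₀ N₀ : ℕ, ∀ N H : ℕ, N₀ ≤ N → H₀ ≤ H → H ≤ N → ∀ b : ℕ, b ≤ N →
      ∀ x : ℕ, x ^ f.natDegree ≤ K * H → H ≤ K * x ^ f.natDegree →
      ∀ ξ : ℕ → ℂ, (∀ n, ‖ξ n‖ ≤ 1) →
      num (Icc 1 x) (fun m => 0 < f.eval (m : ℤ) ∧ ¬ Half a b N ε ξ (f.eval (m : ℤ)).toNat) ≤ ε * x := by
  have ha0 : (0:ℝ) < a := by exact_mod_cast ha
  have ha' : (a : ℤ) ≠ 0 := by exact_mod_cast (by omega : a ≠ 0)
  have hdeg : (Polynomial.C (a : ℤ) * f).natDegree = f.natDegree := Polynomial.natDegree_C_mul ha'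
  obtain ⟨H₀, N₀, h1⟩ := pol liR liR_norm liR_E 3 1 (min (ε / 4) (ε / (8 * a))) (by positivity)
    (Polynomial.C (a : ℤ) * f) (by rw [hdeg]; exact hd) K
  refine ⟨H₀, max N₀ ⌈2 / ε⌉₊, ?_⟩
  intro N H hN hH hHN b hb x hx1 hx2 ξ hξ
  have hle : N ≤ a * N := Nat.le_mul_of_pos_left _ (by omega)
  have hN2 : 2 ≤ ε * N := by
    have h2 : 2 / ε ≤ N := (Nat.le_ceil _).trans (by exact_mod_cast (le_max_right _ _).trans hN)
    rw [div_le_iff₀ hε] at h2; linarith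
  have hbN : (b : ℤ) ≤ (3 : ℕ) * ((a * N : ℕ) : ℤ) := by
    push_cast
    have : (b : ℤ) ≤ a * N := by exact_mod_cast hb.trans hle
    have h0 : (0:ℤ) ≤ a * N := by positivity
    linarith
  have h2 := fam_core (b := b) (s := fun m => f.eval (m : ℤ)) (I := Icc 1 x) (Bd := min (ε / 4) (ε / (8 * a)) * x) ha
    hN2 (by
      have := min_le_right (ε / 4) (ε / (8 * a))
      calc 8 * a * min (ε / 4) (ε / (8 * a)) ≤ 8 * a * (ε / (8 * a)) := by gcongr
        _ = ε := by field_simp) (by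
      intro g hg
      have h4 := h1 (a * N) H (by have := le_max_left N₀ ⌈2 / ε⌉₊; omega) hH (hHN.trans hle) x
        (by rw [hdeg]; exact hx1) (by rw [hdeg]; exact hx2)
        (fun _ => a) (fun _ => (b : ℤ)) (fun _ n => ((g n : ℝ) : ℂ)) (fun _ => ha) (fun _ => hbN)
        (fun _ n => by rw [Complex.norm_real]; exact hg n)
      simp only [Polynomial.eval_mul, Polynomial.eval_C] at h4
      exact h4) hξ
  refine h2.trans ?_
  have h3 : min (ε / 4) (ε / (8 * a)) * x ≤ ε / 4 * x := mul_le_mul_of_nonneg_right (min_le_left _ _) (Nat.cast_nonneg _)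
  linarith

/-- Prime lengths. -/
theorem fam_pri {a : ℕ} (ha : 1 ≤ a) {ε : ℝ} (hε : 0 < ε) :
    ∃ H₀ N₀ : ℕ, ∀ N H : ℕ, N₀ ≤ N → H₀ ≤ H → H ≤ N → ∀ b : ℕ, b ≤ N →
      ∀ ξ : ℕ → ℂ, (∀ n, ‖ξ n‖ ≤ 1) →
      num ((Icc 1 H).filter Nat.Prime) (fun q => ¬ Half a b N ε ξ q) ≤ ε * Nat.primeCounting H := by
  have ha0 : (0:ℝ) < a := by exact_mod_cast ha
  obtain ⟨H₀, N₀, h1⟩ := priA liR liR_norm liR_E 3 1 (min (ε / 4) (ε / (8 * a))) (by positivity) a ha
  refine ⟨H₀, max N₀ ⌈2 / ε⌉₊, ?_⟩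
  intro N H hN hH hHN b hb ξ hξ
  have hle : N ≤ a * N := Nat.le_mul_of_pos_left _ (by omega)
  have hN2 : 2 ≤ ε * N := by
    have h2 : 2 / ε ≤ N := (Nat.le_ceil _).trans (by exact_mod_cast (le_max_right _ _).trans hN)
    rw [div_le_iff₀ hε] at h2; linarith
  have hbN : (b : ℤ) ≤ (3 : ℕ) * ((a * N : ℕ) : ℤ) := by
    push_cast
    have : (b : ℤ) ≤ a * N := by exact_mod_cast hb.trans hle
    have h0 : (0:ℤ) ≤ a * N := by positivity
    linarith
  have h2 := fam_core (b := b) (s := fun m => (m : ℤ)) (I := (Icc 1 H).filter Nat.Prime)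
    (Bd := min (ε / 4) (ε / (8 * a)) * Nat.primeCounting H) ha
    hN2 (by
      have := min_le_right (ε / 4) (ε / (8 * a))
      calc 8 * a * min (ε / 4) (ε / (8 * a)) ≤ 8 * a * (ε / (8 * a)) := by gcongr
        _ = ε := by field_simp) (by
      intro g hg
      exact h1 (a * N) H (by have := le_max_left N₀ ⌈2 / ε⌉₊; omega) hH (Nat.mul_le_mul_left _ hHN)
        (fun _ => a) (fun _ => (b : ℤ)) (fun _ n => ((g n : ℝ) : ℂ)) (fun _ => ha) (fun _ => hbN)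
        (fun _ n => by rw [Complex.norm_real]; exact hg n)) hξ
  refine le_trans (num_mono ?_) (h2.trans ?_)
  · intro q hq hno
    refine ⟨by exact_mod_cast (mem_Icc.1 (mem_filter.1 hq).1).1, ?_⟩
    rw [Int.toNat_natCast]
    exact hno
  · have h3 : min (ε / 4) (ε / (8 * a)) * Nat.primeCounting H ≤ ε / 4 * Nat.primeCounting H :=
      mul_le_mul_of_nonneg_right (min_le_left _ _) (Nat.cast_nonneg _)
    linarith

end Pool.Agent.TH893.CL
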