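import Pool.Agent.TH893.CL.Pair

set_option autoImplicit false

namespace Pool.Agent.TH893.CL

open Finset

variable {l : ℕ → ℝ}

/-- The bound for the combination of the averages over `K`. -/
lemma FD_le (hl : ∀ n, l n = 1 ∨ l n = -1) {N H : ℕ} (hN : 1 ≤ N) {η θ κ : ℝ} (hη : 0 ≤ η) (hθ : 0 < θ) (hκ : 0 < κ)
    (hP : Plus l N H η) (hM : Minus l N H η) {K : Finset ℕ} (hKH : K ⊆ Icc 1 H) (hH : 1 ≤ H)
    (hKc : θ * H ≤ K.card) {τ : ℝ} (hτ : τ = 1 ∨ τ = -1) {Y X : ℕ} (hYX : Y ≤ X) (hX : X ≤ N) :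
    2 * |∑ n ∈ Ioc Y X, F l n * D l K τ n| ≤ ((X:ℝ) - Y) + (24 * η / θ ^ 2 + 9 * η / (θ * κ) + 3 * κ) * N + 4 := by
  have hH0 : (0:ℝ) < H := by exact_mod_cast hH
  have hc : (0:ℝ) < K.card := lt_of_lt_of_le (by positivity) hKc
  have hK : K.Nonempty := card_pos.1 (by exact_mod_cast hc)
  have hXN : (X:ℝ) ≤ N := by exact_mod_cast hX
  have hY0 : (0:ℝ) ≤ Y := by positivity
  have hN0 : (0:ℝ) < N := by exact_mod_cast hN
  have h1 := main_ineq hl hK hτ hYX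
  have h2 := DD_le hl hη hM hK hKH hτ hYX (by omega : X ≤ 2 * N)
  have h3 := A_sum hl hη hP hK hKH hYX (by omega : X ≤ 2 * N) hκ
  have h4 : ∑ n ∈ Ioc Y X, |A l K (n + 1)| ≤ 3 * η * N * H / K.card / (2 * κ) + κ / 2 * ((X:ℝ) - Y) := by
    have h5 := A_sum hl hη hP hK hKH (by omega : Y + 1 ≤ X + 1) (by omega : X + 1 ≤ 2 * N) hκ
    have h6 : ∑ n ∈ Ioc (Y + 1) (X + 1), |A l K n| = ∑ n ∈ Ioc Y X, |A l K (n + 1)| := by
      rw [← Finset.image_add_right_Ioc, sum_image (fun x _ y _ h => by simpa using h)]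
    rw [← h6]
    refine h5.trans (le_of_eq ?_)
    push_cast; ring
  have h7 : 24 * η * N * H ^ 2 / (K.card : ℝ) ^ 2 ≤ 24 * η / θ ^ 2 * N := by
    rw [div_le_iff₀ (by positivity)]
    have h8 : (θ * H) ^ 2 ≤ (K.card : ℝ) ^ 2 := pow_le_pow_left₀ (by positivity) hKc 2
    calc 24 * η * N * H ^ 2 = 24 * η / θ ^ 2 * N * (θ * H) ^ 2 := by field_simp
      _ ≤ _ := mul_le_mul_of_nonneg_left h8 (by positivity)
  have h9 : 3 * η * N * H / K.card / (2 * κ) ≤ 3 * η / (2 * (θ * κ)) * N := by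
    rw [div_div, div_le_iff₀ (by positivity)]
    calc 3 * η * N * H = 3 * η / (2 * (θ * κ)) * N * ((θ * H) * (2 * κ)) := by field_simp
      _ ≤ _ := by
        apply mul_le_mul_of_nonneg_left _ (by positivity)
        exact mul_le_mul_of_nonneg_right hKc (by positivity)
  have h10 : κ / 2 * ((X:ℝ) - Y) ≤ κ / 2 * N := mul_le_mul_of_nonneg_left (by linarith) (by positivity)
  have h11 : 3 * (2 * (3 * η / (2 * (θ * κ)) * N + κ / 2 * N)) = (9 * η / (θ * κ) + 3 * κ) * N := by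
    field_simp; ring
  nlinarith

/-- The sums of the combinations. -/
lemma FD_eq (hl : ∀ n, l n = 1 ∨ l n = -1) (K : Finset ℕ) (τ : ℝ) (Y X : ℕ) :
    ∑ n ∈ Ioc Y X, F l n * D l K τ n = (∑ k ∈ K, (SS l k Y X + τ * SS l (k + 1) Y X)) / K.card := by
  have h1 : ∀ n, F l n * D l K τ n = (∑ k ∈ K, (Pk l k n + τ * Pk l (k + 1) n)) / K.card := by
    intro n
    unfold D
    rw [mul_div_assoc', mul_sum]
    congr 1
    apply sum_congr rfl
    intro k _
    rw [Pk_eq hl, Pk_eq hl, show n + (k + 1) = n + k + 1 by ring]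
    ring
  rw [sum_congr rfl fun n _ => h1 n, ← sum_div, sum_comm]
  congr 1
  apply sum_congr rfl
  intro k _
  unfold SS
  rw [sum_add_distrib, ← mul_sum]

/-- The number of the bad lengths for one interval and one choice of the signs. -/
lemma bad_le (hl : ∀ n, l n = 1 ∨ l n = -1) {N H : ℕ} (hN : 1 ≤ N) {η θ κ ε : ℝ} (hη : 0 ≤ η) (hθ : 0 < θ) (hκ : 0 < κ)
    (hε : 24 * η / θ ^ 2 + 9 * η / (θ * κ) + 3 * κ ≤ ε) (hN4 : 4 ≤ ε * N)
    (hP : Plus l N H η) (hM : Minus l N H η) (hH : 1 ≤ H)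
    {σ τ : ℝ} (hσ : σ = 1 ∨ σ = -1) (hτ : τ = 1 ∨ τ = -1) {Y X : ℕ} (hYX : Y ≤ X) (hX : X ≤ N) :
    num (Icc 1 H) (fun k => ((X:ℝ) - Y) / 2 + ε * N < σ * (SS l k Y X + τ * SS l (k + 1) Y X)) ≤ θ * H := by
  classical
  by_contra hcon
  push Not at hcon
  set K : Finset ℕ := (Icc 1 H).filter (fun k => ((X:ℝ) - Y) / 2 + ε * N < σ * (SS l k Y X + τ * SS l (k + 1) Y X))
    with hK
  have hKc : θ * H < K.card := by
    unfold num at hcon
    convert hcon using 2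
  have hH0 : (0:ℝ) < H := by exact_mod_cast hH
  have hc : (0:ℝ) < K.card := lt_trans (by positivity) hKc
  have h1 := FD_le hl hN hη hθ hκ hP hM (filter_subset _ _ : K ⊆ Icc 1 H) hH hKc.le hτ hYX hX
  have h2 := FD_eq hl K τ Y X
  have hN0 : (0:ℝ) < N := by exact_mod_cast hN
  have h3 : (((X:ℝ) - Y) / 2 + ε * N) ≤ σ * ∑ n ∈ Ioc Y X, F l n * D l K τ n := by
    rw [h2, mul_div_assoc', le_div_iff₀ hc, mul_sum]
    calc (((X:ℝ) - Y) / 2 + ε * N) * K.card = ∑ k ∈ K, (((X:ℝ) - Y) / 2 + ε * N) := by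
          rw [sum_const, nsmul_eq_mul, mul_comm]
      _ ≤ _ := sum_le_sum fun k hk => (mem_filter.1 hk).2.le
  have h4 : σ * ∑ n ∈ Ioc Y X, F l n * D l K τ n ≤ |∑ n ∈ Ioc Y X, F l n * D l K τ n| := by
    have h5 := le_abs_self (σ * ∑ n ∈ Ioc Y X, F l n * D l K τ n)
    rw [abs_mul] at h5
    have h6 : |σ| = 1 := by rcases hσ with rfl | rfl <;> norm_num
    rw [h6, one_mul] at h5
    exact h5
  have h7 : (24 * η / θ ^ 2 + 9 * η / (θ * κ) + 3 * κ) * N ≤ ε * N := mul_le_mul_of_nonneg_right hε hN0.le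
  -- strictness
  have h8 : (((X:ℝ) - Y) / 2 + ε * N) < σ * ∑ n ∈ Ioc Y X, F l n * D l K τ n := by
    rw [h2, mul_div_assoc', lt_div_iff₀ hc, mul_sum]
    calc (((X:ℝ) - Y) / 2 + ε * N) * K.card = ∑ k ∈ K, (((X:ℝ) - Y) / 2 + ε * N) := by
          rw [sum_const, nsmul_eq_mul, mul_comm]
      _ < _ := sum_lt_sum_of_nonempty (card_pos.1 (by exact_mod_cast hc)) fun k hk => (mem_filter.1 hk).2
  linarith

lemma abs_add_abs_le_of {x y B : ℝ} (h : ∀ σ τ : ℝ, (σ = 1 ∨ σ = -1) → (τ = 1 ∨ τ = -1) → σ * (x + τ * y) ≤ B) :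
    |x| + |y| ≤ B := by
  have h1 := h 1 1 (Or.inl rfl) (Or.inl rfl)
  have h2 := h 1 (-1) (Or.inl rfl) (Or.inr rfl)
  have h3 := h (-1) 1 (Or.inr rfl) (Or.inl rfl)
  have h4 := h (-1) (-1) (Or.inr rfl) (Or.inr rfl)
  rcases abs_cases x with ⟨hx, _⟩ | ⟨hx, _⟩ <;> rcases abs_cases y with ⟨hy, _⟩ | ⟨hy, _⟩ <;> rw [hx, hy] <;> linarith

lemma SS_split {k Y X a b : ℕ} (hl : ∀ n, l n = 1 ∨ l n = -1) (ha : a ≤ Y) (hab : a ≤ b) (hYX : Y ≤ X) (hb : b ≤ X) :
    |SS l k Y X| ≤ |SS l k a b| + ((Y:ℝ) - a) + ((X:ℝ) - b) := by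
  have h1 : SS l k a Y + SS l k Y X = SS l k a X := by
    unfold SS; exact sum_Ioc_consecutive _ ha hYX
  have h2 : SS l k a b + SS l k b X = SS l k a X := by
    unfold SS; exact sum_Ioc_consecutive _ hab hb
  have h3 : |SS l k a Y| ≤ (Y:ℝ) - a := abs_sum_Ioc_le (fun n => (Pk_abs hl k n).le) ha
  have h4 : |SS l k b X| ≤ (X:ℝ) - b := abs_sum_Ioc_le (fun n => (Pk_abs hl k n).le) hb
  have h5 : SS l k Y X = SS l k a b + SS l k b X - SS l k a Y := by linarith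
  rw [h5]
  have h6 := abs_sub (SS l k a b + SS l k b X) (SS l k a Y)
  have h7 := abs_add_le (SS l k a b) (SS l k b X)
  linarith

/-- **Main theorem**: the sum of the absolute values of two neighbouring sums is at most half of the length of
the interval, for almost all lengths of the products. -/
theorem core {ε : ℝ} (hε : 0 < ε) : ∃ η : ℝ, 0 < η ∧ ∃ N₁ : ℕ, ∀ l : ℕ → ℝ, (∀ n, l n = 1 ∨ l n = -1) →
    ∀ N H : ℕ, N₁ ≤ N → 1 ≤ H → Plus l N H η → Minus l N H η →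
    num (Icc 1 H) (fun k => ¬ ∀ Y X : ℕ, Y ≤ X → X ≤ N →
      |SS l k Y X| + |SS l (k + 1) Y X| ≤ ((X:ℝ) - Y) / 2 + ε * N) ≤ ε * H := by
  set δ : ℝ := ε / 16 with hδ
  have hδ0 : 0 < δ := by positivity
  set J : ℕ := ⌊1 / δ⌋₊ with hJ
  set θ : ℝ := ε / (4 * ((J:ℝ) + 1) ^ 2) with hθ
  have hθ0 : 0 < θ := by positivity
  set κ : ℝ := ε / 24 with hκ
  have hκ0 : 0 < κ := by positivity
  set η : ℝ := min (ε * θ ^ 2 / 384) (ε * θ * κ / 144) with hη
  have hη0 : 0 < η := by positivity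
  have hη1 : 24 * η / θ ^ 2 ≤ ε / 16 := by
    rw [div_le_iff₀ (by positivity)]
    have := min_le_left (ε * θ ^ 2 / 384) (ε * θ * κ / 144)
    rw [← hη] at this
    linarith
  have hη2 : 9 * η / (θ * κ) ≤ ε / 16 := by
    rw [div_le_iff₀ (by positivity)]
    have := min_le_right (ε * θ ^ 2 / 384) (ε * θ * κ / 144)
    rw [← hη] at this
    linarith
  have hη3 : 24 * η / θ ^ 2 + 9 * η / (θ * κ) + 3 * κ ≤ ε / 4 := by
    have : 3 * κ = ε / 8 := by rw [hκ]; ring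
    linarith
  refine ⟨η, hη0, max 1 ⌈16 / ε⌉₊, ?_⟩
  intro l hl N H hN hH hP hM
  have hN1 : 1 ≤ N := (le_max_left _ _).trans hN
  have hN0 : (0:ℝ) < N := by exact_mod_cast hN1
  have hN2 : 16 / ε ≤ N := (Nat.le_ceil _).trans (by exact_mod_cast (le_max_right _ _).trans hN)
  have hN3 : 16 ≤ ε * N := by rw [div_le_iff₀ hε] at hN2; linarith
  set q : ℕ := ⌊δ * N⌋₊ + 1 with hq
  have hq1 : δ * N < q := by rw [hq]; push_cast; exact Nat.lt_floor_add_one _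
  have hq2 : (q:ℝ) ≤ 2 * (δ * N) := by
    rw [hq]; push_cast
    have := Nat.floor_le (by positivity : 0 ≤ δ * N)
    have : 1 ≤ δ * N := by rw [hδ]; linarith
    linarith
  have hq0 : 0 < q := by omega
  set T : Finset ((ℕ × ℕ) × (ℝ × ℝ)) := ((range (J + 1)) ×ˢ (range (J + 1))) ×ˢ (({1, -1} : Finset ℝ) ×ˢ ({1, -1} : Finset ℝ))
    with hT
  have hTc : (T.card : ℝ) ≤ 4 * ((J:ℝ) + 1) ^ 2 := by
    rw [hT, card_product, card_product, card_product, card_range]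
    have h1 : ({1, -1} : Finset ℝ).card ≤ 2 := card_le_two
    have h2 : (J + 1) * (J + 1) * (({1, -1} : Finset ℝ).card * ({1, -1} : Finset ℝ).card) ≤ (J + 1) * (J + 1) * (2 * 2) :=
      Nat.mul_le_mul_left _ (Nat.mul_le_mul h1 h1)
    have h3 : (((J + 1) * (J + 1) * (({1, -1} : Finset ℝ).card * ({1, -1} : Finset ℝ).card) : ℕ) : ℝ) ≤
        (((J + 1) * (J + 1) * (2 * 2) : ℕ) : ℝ) := by exact_mod_cast h2
    refine h3.trans (le_of_eq ?_)
    push_cast; ring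
  set E : ((ℕ × ℕ) × (ℝ × ℝ)) → ℕ → Prop := fun t k => t.1.1 ≤ t.1.2 ∧ t.1.2 * q ≤ N ∧
    (((t.1.2 * q : ℕ) : ℝ) - ((t.1.1 * q : ℕ) : ℝ)) / 2 + ε / 4 * N <
      t.2.1 * (SS l k (t.1.1 * q) (t.1.2 * q) + t.2.2 * SS l (k + 1) (t.1.1 * q) (t.1.2 * q)) with hE
  have hbad : ∀ t ∈ T, num (Icc 1 H) (E t) ≤ θ * H := by
    intro t ht
    rw [hT, mem_product, mem_product] at ht
    have hs : t.2.1 = 1 ∨ t.2.1 = -1 := by
      have := (mem_product.1 ht.2).1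
      simpa using this
    have hs2 : t.2.2 = 1 ∨ t.2.2 = -1 := by
      have := (mem_product.1 ht.2).2
      simpa using this
    by_cases h1 : t.1.1 ≤ t.1.2 ∧ t.1.2 * q ≤ N
    · have h2 := bad_le hl hN1 hη0.le hθ0 hκ0 hη3 (by linarith) hP hM hH hs hs2
        (Nat.mul_le_mul_right q h1.1) h1.2
      refine (num_mono ?_).trans h2
      intro k _ hk
      exact hk.2.2
    · have h2 : num (Icc 1 H) (E t) ≤ num (Icc 1 H) (fun _ => False) := by
        apply num_mono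
        intro k _ hk
        exact h1 ⟨hk.1, hk.2.1⟩
      have h3 : num (Icc 1 H) (fun _ => False) = 0 := by simp [num]
      rw [h3] at h2
      exact h2.trans (by positivity)
  have hall := (num_exists T (Icc 1 H) E).trans (sum_le_sum hbad)
  rw [sum_const, nsmul_eq_mul] at hall
  have hH0 : (0:ℝ) ≤ H := by positivity
  have hall2 : (T.card : ℝ) * (θ * H) ≤ ε * H := by
    calc (T.card : ℝ) * (θ * H) ≤ (4 * ((J:ℝ) + 1) ^ 2) * (θ * H) := mul_le_mul_of_nonneg_right hTc (by positivity)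
      _ = ε * H := by rw [hθ]; field_simp
  refine (num_mono ?_).trans (hall.trans hall2)
  intro k _ hk
  by_contra hno
  apply hk
  intro Y X hYX hX
  push Not at hno
  set i := Y / q
  set i' := X / q
  have hi : i * q ≤ Y := Nat.div_mul_le_self _ _
  have hi' : i' * q ≤ X := Nat.div_mul_le_self _ _
  have hii : i ≤ i' := Nat.div_le_div_right hYX
  have hiY : Y < i * q + q := by
    have := Nat.lt_div_mul_add hq0 (a := Y)
    exact this
  have hiX : X < i' * q + q := by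
    have := Nat.lt_div_mul_add hq0 (a := X)
    exact this
  have hJ' : i' ≤ J := by
    rw [hJ]
    apply Nat.le_floor
    rw [le_div_iff₀ hδ0]
    have h1 : ((i' * q : ℕ) : ℝ) ≤ N := by exact_mod_cast hi'.trans hX
    push_cast at h1
    have h2 : (i':ℝ) * (δ * N) ≤ i' * q := mul_le_mul_of_nonneg_left hq1.le (by positivity)
    have h3 : ((i':ℝ) * δ) * N ≤ 1 * N := by linarith
    exact le_of_mul_le_mul_right h3 hN0
  have hgrid : |SS l k (i * q) (i' * q)| + |SS l (k + 1) (i * q) (i' * q)| ≤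
      (((i' * q : ℕ) : ℝ) - ((i * q : ℕ) : ℝ)) / 2 + ε / 4 * N := by
    apply abs_add_abs_le_of
    intro σ τ hσ hτ
    have ht : ((i, i'), (σ, τ)) ∈ T := by
      rw [hT]
      simp only [mem_product, mem_range, mem_insert, mem_singleton]
      exact ⟨⟨by omega, by omega⟩, hσ, hτ⟩
    have h1 := hno _ ht
    simp only [hE] at h1
    by_contra hcon
    push Not at hcon
    exact h1 ⟨hii, hi'.trans hX, hcon⟩
  have h1 := SS_split (k := k) hl hi (Nat.mul_le_mul_right q hii) hYX hi'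
  have h2 := SS_split (k := k + 1) hl hi (Nat.mul_le_mul_right q hii) hYX hi'
  have h3 : (Y:ℝ) - ((i * q : ℕ) : ℝ) ≤ q := by
    have : (Y:ℝ) < ((i * q + q : ℕ) : ℝ) := by exact_mod_cast hiY
    push_cast at this ⊢
    linarith
  have h4 : (X:ℝ) - ((i' * q : ℕ) : ℝ) ≤ q := by
    have : (X:ℝ) < ((i' * q + q : ℕ) : ℝ) := by exact_mod_cast hiX
    push_cast at this ⊢
    linarith
  have h5 : ((i' * q : ℕ) : ℝ) ≤ X := by exact_mod_cast hi'
  have h6 : 9 / 2 * (q:ℝ) ≤ 9 / 16 * ε * N := by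
    have : 2 * (δ * N) = ε / 8 * N := by rw [hδ]; ring
    nlinarith
  nlinarith

end Pool.Agent.TH893.CL
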