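import Pool.Agent.TH893.CL.Core

set_option autoImplicit false

namespace Pool.Agent.TH893.CL

open Finset

/-- `l` is uncorrelated with arbitrary functions for almost all forward shifts. -/
def Plus (l : ℕ → ℝ) (N H : ℕ) (η : ℝ) : Prop :=
  ∀ g : ℕ → ℝ, (∀ n, |g n| ≤ 1) → num (Icc 1 H) (fun k => ¬ ∀ Y X : ℕ, Y ≤ X → X ≤ 2 * N →
    |∑ n ∈ Ioc Y X, g n * l (n + k)| ≤ η * N) ≤ η * H

/-- `l` is uncorrelated with arbitrary functions for almost all backward shifts. -/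
def Minus (l : ℕ → ℝ) (N H : ℕ) (η : ℝ) : Prop :=
  ∀ g : ℕ → ℝ, (∀ n, |g n| ≤ 1) → num (Icc 1 H) (fun k => ¬ ∀ Y X : ℕ, Y ≤ X → X ≤ 2 * N →
    |∑ n ∈ Ioc Y X, l n * g (n + k)| ≤ η * N) ≤ η * H

variable {l : ℕ → ℝ}

lemma abs_sum_Ioc_le {f : ℕ → ℝ} (hf : ∀ n, |f n| ≤ 1) {Y X : ℕ} (hYX : Y ≤ X) :
    |∑ n ∈ Ioc Y X, f n| ≤ (X:ℝ) - Y := by
  refine (abs_sum_le_sum_abs _ _).trans ((sum_le_sum fun n _ => hf n).trans (le_of_eq ?_))
  rw [sum_const, Nat.card_Ioc, nsmul_eq_mul, mul_one, Nat.cast_sub hYX]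

lemma plus_sum (hl : ∀ n, l n = 1 ∨ l n = -1) {N H : ℕ} {η : ℝ} (hη : 0 ≤ η) (hP : Plus l N H η)
    {g : ℕ → ℝ} (hg : ∀ n, |g n| ≤ 1) {Y X : ℕ} (hYX : Y ≤ X) (hX : X ≤ 2 * N) :
    ∑ k ∈ Icc 1 H, |∑ n ∈ Ioc Y X, g n * l (n + k)| ≤ 3 * η * N * H := by
  have h1 : ∀ k ∈ Icc 1 H, |∑ n ∈ Ioc Y X, g n * l (n + k)| ≤ 2 * N := by
    intro k _
    refine (abs_sum_Ioc_le (fun n => ?_) hYX).trans ?_
    · rw [abs_mul, l_abs hl, mul_one]; exact hg n
    · have : (X:ℝ) ≤ 2 * N := by exact_mod_cast hX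
      have : (0:ℝ) ≤ Y := by positivity
      linarith
  have h2 := sum_le_of_num (u := η * N) (by positivity) h1
  have h3 := hP g hg
  have h4 : num (Icc 1 H) (fun k => ¬ |∑ n ∈ Ioc Y X, g n * l (n + k)| ≤ η * N) ≤ η * H := by
    refine (num_mono fun k _ h => ?_).trans h3
    intro h5
    exact h (h5 Y X hYX hX)
  rw [Nat.card_Icc, Nat.add_sub_cancel] at h2
  have hN : (0:ℝ) ≤ 2 * N := by positivity
  have h5 := mul_le_mul_of_nonneg_left h4 hN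
  linarith

lemma minus_sum (hl : ∀ n, l n = 1 ∨ l n = -1) {N H : ℕ} {η : ℝ} (hη : 0 ≤ η) (hP : Minus l N H η)
    {g : ℕ → ℝ} (hg : ∀ n, |g n| ≤ 1) {Y X : ℕ} (hYX : Y ≤ X) (hX : X ≤ 2 * N) :
    ∑ k ∈ Icc 1 H, |∑ n ∈ Ioc Y X, l n * g (n + k)| ≤ 3 * η * N * H := by
  have h1 : ∀ k ∈ Icc 1 H, |∑ n ∈ Ioc Y X, l n * g (n + k)| ≤ 2 * N := by
    intro k _
    refine (abs_sum_Ioc_le (fun n => ?_) hYX).trans ?_
    · rw [abs_mul, l_abs hl, one_mul]; exact hg _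
    · have : (X:ℝ) ≤ 2 * N := by exact_mod_cast hX
      have : (0:ℝ) ≤ Y := by positivity
      linarith
  have h2 := sum_le_of_num (u := η * N) (by positivity) h1
  have h3 := hP g hg
  have h4 : num (Icc 1 H) (fun k => ¬ |∑ n ∈ Ioc Y X, l n * g (n + k)| ≤ η * N) ≤ η * H := by
    refine (num_mono fun k _ h => ?_).trans h3
    intro h5
    exact h (h5 Y X hYX hX)
  rw [Nat.card_Icc, Nat.add_sub_cancel] at h2
  have hN : (0:ℝ) ≤ 2 * N := by positivity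
  have h5 := mul_le_mul_of_nonneg_left h4 hN
  linarith

/-- mean square of the average of the shifts -/
lemma A_sq (hl : ∀ n, l n = 1 ∨ l n = -1) {N H : ℕ} {η : ℝ} (hη : 0 ≤ η) (hP : Plus l N H η)
    {K : Finset ℕ} (hK : K.Nonempty) (hKH : K ⊆ Icc 1 H) {Y X : ℕ} (hYX : Y ≤ X) (hX : X ≤ 2 * N) :
    ∑ n ∈ Ioc Y X, (A l K n) ^ 2 ≤ 3 * η * N * H / K.card := by
  have hc : (0:ℝ) < K.card := by exact_mod_cast hK.card_pos
  have h1 : ∀ n, (A l K n) ^ 2 = (∑ k' ∈ K, ∑ k ∈ K, l (n + k') * l (n + k)) / (K.card * K.card) := by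
    intro n
    unfold A
    rw [div_pow, sq, sq, sum_mul_sum]
  rw [sum_congr rfl fun n _ => h1 n, ← sum_div]
  have h2 : ∑ n ∈ Ioc Y X, ∑ k' ∈ K, ∑ k ∈ K, l (n + k') * l (n + k) ≤ K.card * (3 * η * N * H) := by
    rw [sum_comm]
    have h3 : ∀ k' ∈ K, ∑ n ∈ Ioc Y X, ∑ k ∈ K, l (n + k') * l (n + k) ≤ 3 * η * N * H := by
      intro k' _
      rw [sum_comm]
      have h4 := plus_sum hl hη hP (g := fun n => l (n + k')) (fun n => (l_abs hl _).le) hYX hX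
      refine le_trans ?_ h4
      refine le_trans (sum_le_sum fun k _ => le_abs_self _) ?_
      exact sum_le_sum_of_subset_of_nonneg hKH fun _ _ _ => abs_nonneg _
    refine (sum_le_sum h3).trans (le_of_eq ?_)
    rw [sum_const, nsmul_eq_mul]
  rw [div_le_div_iff₀ (by positivity) hc]
  nlinarith

lemma Phi_abs (hl : ∀ n, l n = 1 ∨ l n = -1) {τ : ℝ} (hτ : τ = 1 ∨ τ = -1) (n : ℕ) :
    |(F l n + τ * F l (n + 1)) / 2| ≤ 1 := by
  have h1 : |F l n + τ * F l (n + 1)| ≤ 2 := by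
    refine (abs_add_le _ _).trans ?_
    rw [abs_mul, F_abs hl, F_abs hl]
    have h4 : |τ| = 1 := by rcases hτ with rfl | rfl <;> norm_num
    rw [h4]; norm_num
  rw [abs_div, abs_of_pos (by norm_num : (0:ℝ) < 2), div_le_one (by norm_num)]
  exact h1

/-- the correlation of `l` with two neighbouring values of the average -/
lemma DD_le (hl : ∀ n, l n = 1 ∨ l n = -1) {N H : ℕ} {η : ℝ} (hη : 0 ≤ η) (hM : Minus l N H η)
    {K : Finset ℕ} (hK : K.Nonempty) (hKH : K ⊆ Icc 1 H) {τ : ℝ} (hτ : τ = 1 ∨ τ = -1)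
    {Y X : ℕ} (hYX : Y ≤ X) (hX : X ≤ 2 * N) :
    |∑ n ∈ Ioc Y X, l n * (D l K τ n * D l K τ (n + 1))| ≤ 24 * η * N * H ^ 2 / (K.card : ℝ) ^ 2 := by
  have hc : (0:ℝ) < K.card := by exact_mod_cast hK.card_pos
  set Φ : ℕ → ℝ := fun n => (F l n + τ * F l (n + 1)) / 2 with hΦ
  have hΦb : ∀ n, |Φ n| ≤ 1 := Phi_abs hl hτ
  have hD : ∀ n, D l K τ n = 2 * (∑ k ∈ K, Φ (n + k)) / K.card := by
    intro n
    unfold D
    rw [mul_sum]
    congr 1
    apply sum_congr rfl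
    intro k _
    simp only [hΦ]; ring
  have h1 : ∀ n, l n * (D l K τ n * D l K τ (n + 1)) =
      (4 / (K.card : ℝ) ^ 2) * ∑ k ∈ K, ∑ k' ∈ K, l n * (Φ (n + k) * Φ (n + 1 + k')) := by
    intro n
    rw [hD, hD]
    have h2 : (∑ k ∈ K, ∑ k' ∈ K, l n * (Φ (n + k) * Φ (n + 1 + k'))) =
        l n * ((∑ k ∈ K, Φ (n + k)) * (∑ k' ∈ K, Φ (n + 1 + k'))) := by
      rw [sum_mul_sum, mul_sum]
      apply sum_congr rfl
      intro k _
      rw [mul_sum]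
    rw [h2]
    field_simp
    ring
  rw [sum_congr rfl fun n _ => h1 n, ← mul_sum, abs_mul, abs_of_pos (by positivity : (0:ℝ) < 4 / (K.card : ℝ) ^ 2)]
  have h3 : |∑ n ∈ Ioc Y X, ∑ k ∈ K, ∑ k' ∈ K, l n * (Φ (n + k) * Φ (n + 1 + k'))| ≤ 6 * η * N * H ^ 2 := by
    rw [sum_comm]
    refine (abs_sum_le_sum_abs _ _).trans ?_
    set U : ℕ → ℕ → ℝ := fun d k => |∑ n ∈ Ioc Y X, l n * (Φ (n + k) * Φ (n + k + 1 + d - H))| with hU
    have h4 : ∀ k ∈ K, |∑ n ∈ Ioc Y X, ∑ k' ∈ K, l n * (Φ (n + k) * Φ (n + 1 + k'))| ≤ ∑ d ∈ range (2 * H), U d k := by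
      intro k hk
      have hk1 := mem_Icc.1 (hKH hk)
      rw [sum_comm]
      refine (abs_sum_le_sum_abs _ _).trans ?_
      have h5 : ∀ k' ∈ K, |∑ n ∈ Ioc Y X, l n * (Φ (n + k) * Φ (n + 1 + k'))| = U (k' + H - k) k := by
        intro k' hk'
        have hk2 := mem_Icc.1 (hKH hk')
        simp only [hU]
        congr 1
        apply sum_congr rfl
        intro n _
        have h6 : n + k + 1 + (k' + H - k) - H = n + 1 + k' := by omega
        rw [h6]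
      rw [sum_congr rfl h5]
      have hinj : Set.InjOn (fun k' => k' + H - k) (K : Set ℕ) := by
        intro x hx y hy hxy
        have hx2 := mem_Icc.1 (hKH (mem_coe.1 hx))
        have hy2 := mem_Icc.1 (hKH (mem_coe.1 hy))
        simp only at hxy
        omega
      have h7 := sum_image (f := fun d => U d k) hinj
      rw [← h7]
      apply sum_le_sum_of_subset_of_nonneg
      · intro d hd
        obtain ⟨k', hk', rfl⟩ := mem_image.1 hd
        have hk2 := mem_Icc.1 (hKH hk')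
        simp only [mem_range]
        omega
      · intro _ _ _; exact abs_nonneg _
    refine (sum_le_sum h4).trans ?_
    rw [sum_comm]
    have h8 : ∀ d ∈ range (2 * H), ∑ k ∈ K, U d k ≤ 3 * η * N * H := by
      intro d _
      have h9 := minus_sum hl hη hM (g := fun m => Φ m * Φ (m + 1 + d - H)) (fun n => by
        rw [abs_mul]; exact mul_le_one₀ (hΦb _) (abs_nonneg _) (hΦb _)) hYX hX
      refine le_trans ?_ h9
      exact sum_le_sum_of_subset_of_nonneg hKH fun _ _ _ => abs_nonneg _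
    refine (sum_le_sum h8).trans (le_of_eq ?_)
    rw [sum_const, card_range, nsmul_eq_mul]
    push_cast
    ring
  calc _ ≤ 4 / (K.card : ℝ) ^ 2 * (6 * η * N * H ^ 2) := mul_le_mul_of_nonneg_left h3 (by positivity)
    _ = _ := by ring

/-- Sum of the absolute values of the averages of the shifts. -/
lemma A_sum (hl : ∀ n, l n = 1 ∨ l n = -1) {N H : ℕ} {η : ℝ} (hη : 0 ≤ η) (hP : Plus l N H η)
    {K : Finset ℕ} (hK : K.Nonempty) (hKH : K ⊆ Icc 1 H) {Y X : ℕ} (hYX : Y ≤ X) (hX : X ≤ 2 * N)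
    {κ : ℝ} (hκ : 0 < κ) :
    ∑ n ∈ Ioc Y X, |A l K n| ≤ 3 * η * N * H / K.card / (2 * κ) + κ / 2 * ((X:ℝ) - Y) := by
  have h1 : ∀ n ∈ Ioc Y X, |A l K n| ≤ (A l K n) ^ 2 / (2 * κ) + κ / 2 := by
    intro n _
    rw [← sq_abs]
    set t := |A l K n|
    have h2 : t ^ 2 / (2 * κ) + κ / 2 - t = (t - κ) ^ 2 / (2 * κ) := by field_simp; ring
    have h3 : 0 ≤ (t - κ) ^ 2 / (2 * κ) := by positivity
    linarith
  refine (sum_le_sum h1).trans ?_
  rw [sum_add_distrib, ← sum_div, sum_const, Nat.card_Ioc, nsmul_eq_mul, Nat.cast_sub hYX]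
  have h4 := A_sq hl hη hP hK hKH hYX hX
  have h5 : (∑ n ∈ Ioc Y X, (A l K n) ^ 2) / (2 * κ) ≤ 3 * η * N * H / K.card / (2 * κ) :=
    div_le_div_of_nonneg_right h4 (by positivity)
  linarith

end Pool.Agent.TH893.CL
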